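import Mathlib
import Pool.Agent.Q91.SGr.Comb

/-!
# The dual of a non-separable metrizable abelian group need not be an s-group
-/

set_option autoImplicit false

open Filter Topology Set TopologicalSpace

namespace Pool.Agent.Results.MP_c8715f_al.NotSGroup

/-- A Hausdorff abelian topological group (written multiplicatively) is an s-group if there is a
set `S` of sequences converging to the neutral element such that its topology is finer than every
Hausdorff group topology in which all the sequences of `S` converge to the neutral element. -/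
def IsSGroup (H : Type) [CommGroup H] [τ : TopologicalSpace H] [IsTopologicalGroup H]
    [T2Space H] : Prop :=
  ∃ S : Set (ℕ → H), (∀ s ∈ S, Tendsto s atTop (𝓝 1)) ∧
    ∀ σ : TopologicalSpace H, @IsTopologicalGroup H σ _ → @T2Space H σ →
      (∀ s ∈ S, Tendsto s atTop (@nhds H σ 1)) → τ ≤ σ

section circle
open MeasureTheory AddCircle

theorem fourier_add_arg {T : ℝ} (n : ℤ) (x y : AddCircle T) :
    fourier n (x + y) = fourier n x * fourier n y := by
  simp only [fourier_apply, smul_add, toCircle_add, Circle.coe_mul]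

/-- Continuous characters of the circle are powers. -/
theorem circle_char (k : Circle →* Circle) (hk : Continuous k) : ∃ n : ℤ, ∀ z, k z = z ^ n := by
  have : Fact ((0 : ℝ) < 1) := ⟨one_pos⟩
  let f : C(AddCircle (1 : ℝ), ℂ) :=
    ⟨fun x => (k (toCircle x) : ℂ), by
      exact continuous_subtype_val.comp (hk.comp AddCircle.continuous_toCircle)⟩
  have hf : ∀ x, f x = (k (toCircle x) : ℂ) := fun x => rfl
  have hadd : ∀ x y, f (x + y) = f x * f y := by
    intro x y
    rw [hf, hf, hf, toCircle_add, map_mul, Circle.coe_mul]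
  have hnorm : ∀ x, ‖f x‖ = 1 := fun x => by rw [hf]; exact Circle.norm_coe _
  have hex : ∃ n : ℤ, fourierCoeff f n ≠ 0 := by
    by_contra hcon
    push Not at hcon
    have h1 := tsum_sq_fourierCoeff (ContinuousMap.toLp (E := ℂ) 2 haarAddCircle ℂ f)
    have h2 : ∀ n : ℤ, fourierCoeff (ContinuousMap.toLp (E := ℂ) 2 haarAddCircle ℂ f) n = 0 :=
      fun n => by rw [fourierCoeff_toLp]; exact hcon n
    simp only [h2, norm_zero, ne_eq, OfNat.ofNat_ne_zero, not_false_eq_true, zero_pow,
      tsum_zero] at h1
    have h3 : ∫ t, ‖(ContinuousMap.toLp (E := ℂ) 2 haarAddCircle ℂ f) t‖ ^ 2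
        ∂(haarAddCircle : Measure (AddCircle (1 : ℝ))) = 1 := by
      have h4 : (fun t => ‖(ContinuousMap.toLp (E := ℂ) 2 haarAddCircle ℂ f) t‖ ^ 2)
          =ᵐ[haarAddCircle] fun _ => (1 : ℝ) := by
        filter_upwards [ContinuousMap.coeFn_toLp (E := ℂ) (p := 2) (𝕜 := ℂ) haarAddCircle f]
          with t ht
        rw [ht, hnorm]; norm_num
      rw [integral_congr_ae h4]; simp
    rw [h3] at h1
    exact zero_ne_one h1
  obtain ⟨n, hn⟩ := hex
  refine ⟨n, ?_⟩
  have key : ∀ y, f y = fourier n y := by
    intro y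
    have h1 : fourierCoeff f n = (fourier (-n) y * f y) * fourierCoeff f n := by
      unfold fourierCoeff
      calc ∫ t, fourier (-n) t • f t ∂haarAddCircle
          = ∫ t, fourier (-n) (t + y) • f (t + y) ∂haarAddCircle :=
            (integral_add_right_eq_self (fun t => fourier (-n) t • f t) y).symm
        _ = ∫ t, (fourier (-n) y * f y) * (fourier (-n) t • f t) ∂haarAddCircle := by
            congr 1; ext t
            rw [fourier_add_arg, hadd]
            simp only [smul_eq_mul]; ring
        _ = (fourier (-n) y * f y) * ∫ t, fourier (-n) t • f t ∂haarAddCircle :=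
            integral_const_mul _ _
    have h2 : fourier (-n) y * f y = 1 := by
      have h3 : (fourier (-n) y * f y - 1) * fourierCoeff f n = 0 := by
        rw [sub_mul, one_mul, ← h1, sub_self]
      rcases mul_eq_zero.1 h3 with h | h
      · exact sub_eq_zero.1 h
      · exact absurd h hn
    have h4 : fourier n y * fourier (-n) y = (1 : ℂ) := by
      rw [← fourier_add, add_neg_cancel, fourier_zero]
    calc f y = (fourier n y * fourier (-n) y) * f y := by rw [h4, one_mul]
      _ = fourier n y * (fourier (-n) y * f y) := by ring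
      _ = fourier n y := by rw [h2, mul_one]
  intro z
  obtain ⟨x, rfl⟩ : ∃ x : AddCircle (1 : ℝ), toCircle x = z :=
    ⟨(AddCircle.homeomorphCircle one_ne_zero).symm z, by
      have := (AddCircle.homeomorphCircle (T := 1) one_ne_zero).apply_symm_apply z
      rwa [AddCircle.homeomorphCircle_apply] at this⟩
  have h5 := key x
  rw [hf, fourier_apply] at h5
  have h6 := Circle.coe_injective h5
  rw [h6]
  exact toCircle_zsmul _ _

end circle

theorem zpow_eq_zero (m : ℤ) (h : ∀ u : Circle, u ^ m = 1) : m = 0 := by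
  by_contra hm
  have h1 := h (Circle.exp (Real.pi / m))
  rw [← Circle.exp_zsmul] at h1
  have h2 : m • (Real.pi / (m : ℝ)) = Real.pi := by
    rw [zsmul_eq_mul]
    field_simp
  rw [h2] at h1
  exact Circle.exp_pi_ne_one h1

/-- the group of all sequences in the circle with the topology of uniform convergence -/
abbrev G : Type := UniformFun ℕ Circle

open Classical in
/-- the function with value `u` on `A` and `1` elsewhere -/
noncomputable def ind (A : Set ℕ) (u : Circle) : G :=
  UniformFun.ofFun (fun n => if n ∈ A then u else 1)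

/-- evaluation -/
def ev (n : ℕ) : G →* Circle where
  toFun f := UniformFun.toFun f n
  map_one' := rfl
  map_mul' _ _ := rfl

theorem G_ext {f g : G} (h : ∀ n, ev n f = ev n g) : f = g := funext h

theorem ev_ind_mem {A : Set ℕ} {u : Circle} {n : ℕ} (h : n ∈ A) : ev n (ind A u) = u := if_pos h

theorem ev_ind_notMem {A : Set ℕ} {u : Circle} {n : ℕ} (h : n ∉ A) : ev n (ind A u) = 1 :=
  if_neg h

theorem mem_nhds_one {V : Set Circle} (hV : V ∈ 𝓝 (1 : Circle)) :
    {f : G | ∀ n, ev n f ∈ V} ∈ 𝓝 (1 : G) :=
  (UniformFun.hasBasis_nhds_one (α := ℕ) (G := Circle)).mem_of_mem hV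

theorem exists_of_mem_nhds_one {W : Set G} (hW : W ∈ 𝓝 (1 : G)) :
    ∃ V ∈ 𝓝 (1 : Circle), ∀ f : G, (∀ n, ev n f ∈ V) → f ∈ W := by
  obtain ⟨V, hV, h⟩ := (UniformFun.hasBasis_nhds_one (α := ℕ) (G := Circle)).mem_iff.mp hW
  exact ⟨V, hV, fun f hf => h hf⟩

/-- the homomorphism `u ↦ ind A u` -/
noncomputable def indHom (A : Set ℕ) : Circle →ₜ* G where
  toFun := ind A
  map_one' := G_ext fun n => by
    by_cases h : n ∈ A
    · rw [ev_ind_mem h, map_one]
    · rw [ev_ind_notMem h, map_one]
  map_mul' u v := G_ext fun n => by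
    rw [map_mul]
    by_cases h : n ∈ A
    · rw [ev_ind_mem h, ev_ind_mem h, ev_ind_mem h]
    · rw [ev_ind_notMem h, ev_ind_notMem h, ev_ind_notMem h, one_mul]
  continuous_toFun := by
    let φ : Circle →* G := MonoidHom.mk' (ind A) (fun u v => G_ext fun n => by
      rw [map_mul]
      by_cases h : n ∈ A
      · rw [ev_ind_mem h, ev_ind_mem h, ev_ind_mem h]
      · rw [ev_ind_notMem h, ev_ind_notMem h, ev_ind_notMem h, one_mul])
    have h1 : Continuous φ := by
      apply continuous_of_continuousAt_one
      unfold ContinuousAt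
      rw [map_one]
      intro W hW
      obtain ⟨V, hV, h⟩ := exists_of_mem_nhds_one hW
      rw [mem_map]
      filter_upwards [hV] with u hu
      apply h
      intro n
      show ev n (ind A u) ∈ V
      by_cases hn : n ∈ A
      · rwa [ev_ind_mem hn]
      · rw [ev_ind_notMem hn]
        exact mem_of_mem_nhds hV
    exact h1

theorem indHom_apply (A : Set ℕ) (u : Circle) : indHom A u = ind A u := rfl

theorem exists_mu (χ : PontryaginDual G) (A : Set ℕ) :
    ∃ m : ℤ, ∀ u, χ (ind A u) = u ^ m := by
  obtain ⟨m, hm⟩ := circle_char ((χ : G →* Circle).comp (indHom A : Circle →* G))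
    ((map_continuous χ).comp (map_continuous (indHom A)))
  exact ⟨m, hm⟩

/-- the integer valued set function of a character -/
noncomputable def mu (χ : PontryaginDual G) (A : Set ℕ) : ℤ := (exists_mu χ A).choose

theorem mu_spec (χ : PontryaginDual G) (A : Set ℕ) (u : Circle) : χ (ind A u) = u ^ mu χ A :=
  (exists_mu χ A).choose_spec u

theorem mu_union (χ : PontryaginDual G) (A B : Set ℕ) (h : Disjoint A B) :
    mu χ (A ∪ B) = mu χ A + mu χ B := by
  have h1 : ∀ u : Circle, u ^ (mu χ (A ∪ B) - (mu χ A + mu χ B)) = 1 := by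
    intro u
    have h2 : ind (A ∪ B) u = ind A u * ind B u := G_ext fun n => by
      rw [map_mul]
      by_cases hA : n ∈ A
      · have hB : n ∉ B := Set.disjoint_left.mp h hA
        rw [ev_ind_mem (Or.inl hA), ev_ind_mem hA, ev_ind_notMem hB, mul_one]
      · by_cases hB : n ∈ B
        · rw [ev_ind_mem (Or.inr hB), ev_ind_mem hB, ev_ind_notMem hA, one_mul]
        · have : n ∉ A ∪ B := fun h => h.elim hA hB
          rw [ev_ind_notMem this, ev_ind_notMem hA, ev_ind_notMem hB, one_mul]
    rw [zpow_sub, zpow_add, ← mu_spec, ← mu_spec, ← mu_spec, h2, map_mul, mul_inv_cancel]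
  have := zpow_eq_zero _ h1
  linarith

/-- a finite product of functions with disjoint supports -/
theorem ev_prod {ι : Type} (F : Finset ι) (A : ι → Set ℕ) (u : ι → Circle)
    (hd : ∀ i ∈ F, ∀ j ∈ F, i ≠ j → Disjoint (A i) (A j)) (n : ℕ) :
    ev n (∏ i ∈ F, ind (A i) (u i)) = 1 ∨ ∃ i ∈ F, n ∈ A i ∧
      ev n (∏ i ∈ F, ind (A i) (u i)) = u i := by
  classical
  rw [map_prod]
  by_cases h : ∃ i ∈ F, n ∈ A i
  · obtain ⟨i, hi, hn⟩ := h
    right
    refine ⟨i, hi, hn, ?_⟩
    rw [Finset.prod_eq_single_of_mem i hi, ev_ind_mem hn]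
    intro j hj hji
    rw [ev_ind_notMem]
    exact Set.disjoint_left.mp (hd i hi j hj (Ne.symm hji)) hn
  · left
    push Not at h
    exact Finset.prod_eq_one fun i hi => ev_ind_notMem (h i hi)

theorem mu_bounded (χ : PontryaginDual G) : ∃ N : ℕ, ∀ (ι : Type) (F : Finset ι) (A : ι → Set ℕ),
    (∀ i ∈ F, ∀ j ∈ F, i ≠ j → Disjoint (A i) (A j)) → (∀ i ∈ F, mu χ (A i) ≠ 0) →
    F.card ≤ N := by
  have hO : {z : Circle | 0 < (z : ℂ).re} ∈ 𝓝 (1 : Circle) := by
    refine IsOpen.mem_nhds ?_ (by simp)
    exact isOpen_lt continuous_const (Complex.continuous_re.comp continuous_subtype_val)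
  have h1 : χ ⁻¹' {z : Circle | 0 < (z : ℂ).re} ∈ 𝓝 (1 : G) := by
    have := (map_continuous χ).continuousAt (x := (1 : G))
    unfold ContinuousAt at this
    rw [map_one] at this
    exact this hO
  obtain ⟨V, hV, h2⟩ := exists_of_mem_nhds_one h1
  have h3 : Circle.exp ⁻¹' V ∈ 𝓝 (0 : ℝ) := by
    have := Circle.exp.continuous.continuousAt (x := (0 : ℝ))
    unfold ContinuousAt at this
    rw [Circle.exp_zero] at this
    exact this hV
  obtain ⟨δ, hδ, h4⟩ := Metric.mem_nhds_iff.mp h3
  obtain ⟨N, hN⟩ := exists_nat_gt (Real.pi / δ)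
  refine ⟨N, fun ι F A hd hne => ?_⟩
  by_contra hcard
  push Not at hcard
  let S : ℝ := ∑ i ∈ F, |(mu χ (A i) : ℝ)|
  have hS : (F.card : ℝ) ≤ S := by
    have : (F.card : ℝ) = ∑ i ∈ F, (1 : ℝ) := by simp
    rw [this]
    refine Finset.sum_le_sum fun i hi => ?_
    have h5 : (1 : ℤ) ≤ |mu χ (A i)| := Int.one_le_abs (hne i hi)
    exact_mod_cast h5
  have hSN : Real.pi / δ < S := by
    have : (N : ℝ) < F.card := by exact_mod_cast hcard
    linarith
  have hSpos : 0 < S := lt_trans (by positivity) hSN
  let s : ℝ := Real.pi / S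
  have hs : 0 < s := by positivity
  have hsδ : s < δ := by
    show Real.pi / S < δ
    rw [div_lt_iff₀ hSpos]
    rw [div_lt_iff₀ hδ] at hSN
    linarith [mul_comm S δ]
  let r : ι → ℝ := fun i => if 0 ≤ mu χ (A i) then s else -s
  have hr : ∀ i, |r i| = s := by
    intro i
    show |if 0 ≤ mu χ (A i) then s else -s| = s
    split_ifs
    · exact abs_of_pos hs
    · rw [abs_neg]
      exact abs_of_pos hs
  have hr' : ∀ i, (mu χ (A i)) • r i = |(mu χ (A i) : ℝ)| * s := by
    intro i
    show (mu χ (A i)) • (if 0 ≤ mu χ (A i) then s else -s) = _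
    rw [zsmul_eq_mul]
    split_ifs with h
    · rw [abs_of_nonneg (by exact_mod_cast h)]
    · push Not at h
      rw [abs_of_neg (by exact_mod_cast h)]
      ring
  have hmem : (∏ i ∈ F, ind (A i) (Circle.exp (r i))) ∈ χ ⁻¹' {z : Circle | 0 < (z : ℂ).re} := by
    apply h2
    intro n
    rcases ev_prod F A (fun i => Circle.exp (r i)) hd n with h | ⟨i, _, _, h⟩
    · rw [h]
      exact mem_of_mem_nhds hV
    · rw [h]
      apply h4
      rw [Metric.mem_ball, dist_zero_right, Real.norm_eq_abs, hr]
      exact hsδ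
  have hval : χ (∏ i ∈ F, ind (A i) (Circle.exp (r i))) = Circle.exp Real.pi := by
    rw [map_prod]
    have h5 : ∀ i ∈ F, χ (ind (A i) (Circle.exp (r i))) = Circle.exp (|(mu χ (A i) : ℝ)| * s) := by
      intro i _
      rw [mu_spec, ← Circle.exp_zsmul, hr']
    rw [Finset.prod_congr rfl h5]
    have h6 : ∀ (F : Finset ι) (t : ι → ℝ), ∏ i ∈ F, Circle.exp (t i) =
        Circle.exp (∑ i ∈ F, t i) := by
      classical
      intro F t
      induction F using Finset.induction_on with
      | empty => simp
      | insert a F ha ih => rw [Finset.prod_insert ha, Finset.sum_insert ha, Circle.exp_add, ih]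
    rw [h6, ← Finset.sum_mul]
    congr 1
    show S * (Real.pi / S) = Real.pi
    field_simp
  have h7 : 0 < ((χ (∏ i ∈ F, ind (A i) (Circle.exp (r i))) : Circle) : ℂ).re := hmem
  rw [hval, Circle.coe_exp, Complex.exp_pi_mul_I] at h7
  norm_num at h7

theorem eq_one_of_mu (χ : PontryaginDual G) (h : ∀ A, mu χ A = 0) : χ = 1 := by
  classical
  ext1 f
  show χ f = 1
  by_contra hne
  have h0 : {z : Circle | z ≠ χ f} ∈ 𝓝 (1 : Circle) := by
    exact isOpen_ne.mem_nhds (Ne.symm hne)
  have h1 : χ ⁻¹' {z : Circle | z ≠ χ f} ∈ 𝓝 (1 : G) := by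
    have := (map_continuous χ).continuousAt (x := (1 : G))
    unfold ContinuousAt at this
    rw [map_one] at this
    exact this h0
  obtain ⟨V, hV, h2⟩ := exists_of_mem_nhds_one h1
  obtain ⟨t, -, ht⟩ := (isCompact_univ (X := Circle)).elim_nhds_subcover
    (fun w => {z | z / w ∈ V}) (fun w _ => by
      have h3 : Tendsto (fun z : Circle => z / w) (𝓝 w) (𝓝 (w / w)) :=
        (by fun_prop : ContinuousAt (fun z : Circle => z / w) w)
      rw [div_self'] at h3
      exact h3 hV)
  have h4 : ∀ z : Circle, ∃ w ∈ t, z / w ∈ V := by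
    intro z
    have := ht (mem_univ z)
    simp only [mem_iUnion] at this
    obtain ⟨w, hw, hz⟩ := this
    exact ⟨w, hw, hz⟩
  choose r hr1 hr2 using h4
  let g : G := ∏ w ∈ t, ind {n | r (ev n f) = w} w
  have hg : ∀ n, ev n g = r (ev n f) := by
    intro n
    show ev n (∏ w ∈ t, ind {n | r (ev n f) = w} w) = _
    rw [map_prod, Finset.prod_eq_single_of_mem (r (ev n f)) (hr1 _)]
    · exact ev_ind_mem rfl
    · intro w _ hw
      exact ev_ind_notMem (fun h => hw h.symm)
  have hχg : χ g = 1 := by
    show χ (∏ w ∈ t, ind {n | r (ev n f) = w} w) = 1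
    rw [map_prod]
    refine Finset.prod_eq_one fun w _ => ?_
    rw [mu_spec, h, zpow_zero]
  have h5 : f / g ∈ χ ⁻¹' {z : Circle | z ≠ χ f} := by
    apply h2
    intro n
    rw [map_div, hg]
    exact hr2 _
  apply h5
  rw [map_div, hχg, div_one]

/-- convergent sequences in the dual are eventually constant -/
theorem seq_trivial (χ : ℕ → PontryaginDual G) (h : Tendsto χ atTop (𝓝 1)) :
    ∀ᶠ k in atTop, χ k = 1 := by
  have hev : ∀ A, ∀ᶠ k in atTop, mu (χ k) A = 0 := by
    intro A
    have h1 : Tendsto (fun k => PontryaginDual.map (indHom A) (χ k)) atTop (𝓝 1) := by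
      have h2 := (map_continuous (PontryaginDual.map (indHom A))).continuousAt
        (x := (1 : PontryaginDual G))
      unfold ContinuousAt at h2
      rw [map_one] at h2
      exact h2.comp h
    rw [nhds_discrete, tendsto_pure] at h1
    filter_upwards [h1] with k hk
    apply zpow_eq_zero
    intro u
    rw [← mu_spec]
    exact DFunLike.congr_fun hk u
  have h1 := Pool.Agent.Q91.SGr.comb (fun k A => mu (χ k) A) (fun k A B => mu_union (χ k) A B)
    (fun k => by
      obtain ⟨N, hN⟩ := mu_bounded (χ k)
      exact ⟨N, fun F A => hN _ F A⟩) hev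
  filter_upwards [h1] with k hk
  exact eq_one_of_mu _ hk

/-- evaluation as an element of the dual -/
noncomputable def dl (n : ℕ) : PontryaginDual G :=
  ({ ev n with continuous_toFun := (UniformFun.uniformContinuous_eval Circle n).continuous } :
    G →ₜ* Circle)

theorem dl_apply (n : ℕ) (f : G) : dl n f = ev n f := rfl

theorem dl_injective : Function.Injective dl := by
  intro n m h
  by_contra hne
  have h1 := DFunLike.congr_fun h (ind {n} (Circle.exp Real.pi))
  rw [dl_apply, dl_apply, ev_ind_mem (n := n) (A := {n}) (Set.mem_singleton n),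
    ev_ind_notMem (n := m) (A := {n}) (by simpa using Ne.symm hne)] at h1
  exact Circle.exp_pi_ne_one h1

theorem not_discrete : ¬ DiscreteTopology (PontryaginDual G) := by
  intro hD
  let F : Ultrafilter ℕ := hyperfilter ℕ
  have h1 : ∀ f : G, ∃ c : Circle, Tendsto (fun n => ev n f) F (𝓝 c) := by
    intro f
    obtain ⟨c, -, hc⟩ := (isCompact_univ (X := Circle)).ultrafilter_le_nhds
      (F.map (fun n => ev n f)) (by simp)
    exact ⟨c, hc⟩
  choose ψ hψ using h1
  have heq : Equicontinuous (fun (n : ℕ) (f : G) => ev n f) := by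
    intro f U hU
    filter_upwards [(UniformFun.hasBasis_nhds ℕ Circle f).mem_of_mem hU] with g hg n
    exact hg n
  have hpt : Tendsto (fun (n : ℕ) (f : G) => ev n f) F (𝓝 ψ) := tendsto_pi_nhds.mpr hψ
  have hcont : Continuous ψ := hpt.continuous_of_equicontinuous heq
  let Ψ0 : G →ₜ* Circle :=
    { toFun := ψ
      map_one' := tendsto_nhds_unique (hψ 1) (by simp)
      map_mul' := fun f g => by
        refine tendsto_nhds_unique (hψ (f * g)) ?_
        simp only [map_mul]
        exact (hψ f).mul (hψ g)
      continuous_toFun := hcont }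
  let Ψ : PontryaginDual G := Ψ0
  have hlim : Tendsto dl F (𝓝 Ψ) := by
    refine (ContinuousMonoidHom.isInducing_toContinuousMap G Circle).tendsto_nhds_iff.mpr ?_
    rw [ContinuousMap.tendsto_iff_forall_isCompact_tendstoUniformlyOn]
    intro K hK
    have h2 := (EquicontinuousOn.tendsto_uniformOnFun_iff_pi (𝔖 := {K : Set G | IsCompact K})
      (F := fun (n : ℕ) (f : G) => ev n f) (fun K hK => hK) (by
        rw [Set.eq_univ_iff_forall]
        intro x
        exact ⟨{x}, isCompact_singleton, rfl⟩) (fun K _ => heq.equicontinuousOn K)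
        (F : Filter ℕ) ψ).mpr hpt
    rw [UniformOnFun.tendsto_iff_tendstoUniformlyOn] at h2
    exact h2 K hK
  rw [nhds_discrete, tendsto_pure] at hlim
  have hfin : {n | dl n = Ψ}.Finite := by
    refine Set.Subsingleton.finite ?_
    intro n hn m hm
    exact dl_injective (hn.trans hm.symm)
  exact notMem_hyperfilter_of_finite hfin hlim

theorem not_separable : ¬ SeparableSpace G := by
  intro hsep
  obtain ⟨D, hD1, hD2⟩ := TopologicalSpace.exists_countable_dense G
  let g : G → Set ℕ := fun f => {n | (ev n f : ℂ).re < 0}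
  have hsurj : ∀ A : Set ℕ, ∃ d ∈ D, g d = A := by
    intro A
    have hO : {z : Circle | 0 < (z : ℂ).re} ∈ 𝓝 (1 : Circle) := by
      refine IsOpen.mem_nhds ?_ (by simp)
      exact isOpen_lt continuous_const (Complex.continuous_re.comp continuous_subtype_val)
    have h1 := mem_nhds_one hO
    have h2 : {f : G | ∀ n, ev n (f / ind A (Circle.exp Real.pi)) ∈
        {z : Circle | 0 < (z : ℂ).re}} ∈ 𝓝 (ind A (Circle.exp Real.pi)) := by
      have h3 : Tendsto (fun f : G => f / ind A (Circle.exp Real.pi))
          (𝓝 (ind A (Circle.exp Real.pi)))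
          (𝓝 (ind A (Circle.exp Real.pi) / ind A (Circle.exp Real.pi))) :=
        (by fun_prop : ContinuousAt (fun f : G => f / ind A (Circle.exp Real.pi))
          (ind A (Circle.exp Real.pi)))
      rw [div_self'] at h3
      exact h3 h1
    obtain ⟨d, hd2, hd1⟩ := hD2.inter_nhds_nonempty h2
    refine ⟨d, hd2, ?_⟩
    ext n
    have h4 : 0 < ((ev n d / ev n (ind A (Circle.exp Real.pi)) : Circle) : ℂ).re := by
      have := hd1 n
      rwa [map_div] at this
    show (ev n d : ℂ).re < 0 ↔ n ∈ A
    by_cases hn : n ∈ A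
    · rw [ev_ind_mem hn, Circle.coe_div, Circle.coe_exp, Complex.exp_pi_mul_I] at h4
      rw [div_neg, div_one, Complex.neg_re] at h4
      exact ⟨fun _ => hn, fun _ => by linarith⟩
    · rw [ev_ind_notMem hn, div_one] at h4
      exact ⟨fun h => absurd h (not_lt.mpr h4.le), fun h => absurd h hn⟩
  apply Pool.Agent.Q91.SGr.uncountable_seq
  have h3 : (Set.univ : Set (Set ℕ)).Countable := by
    refine (hD1.image g).mono fun A _ => ?_
    obtain ⟨d, hd, h⟩ := hsurj A
    exact ⟨d, hd, h⟩
  have h4 := h3.image (fun (A : Set ℕ) (n : ℕ) => (Classical.propDecidable (n ∈ A)).decide)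
  refine h4.mono fun a _ => ?_
  refine ⟨{n | a n = true}, trivial, ?_⟩
  funext n
  show (Classical.propDecidable (a n = true)).decide = a n
  cases a n <;> simp

/-- Q1 is disproved, for all three classes at once: there is a non-separable metrizable (hence
Fréchet-Urysohn and sequential) abelian topological group whose dual group is not an s-group. -/
theorem result : ∃ (G : Type) (_ : CommGroup G) (_ : TopologicalSpace G)
    (_ : IsTopologicalGroup G), MetrizableSpace G ∧ ¬ SeparableSpace G ∧
      FrechetUrysohnSpace G ∧ SequentialSpace G ∧ ¬ IsSGroup (PontryaginDual G) := by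
  have hpm : PseudoMetrizableSpace G :=
    ⟨(inferInstance : MetricSpace G).toPseudoMetricSpace.toUniformSpace, rfl,
      EMetric.instIsCountablyGeneratedUniformity⟩
  have hm : MetrizableSpace G := inferInstance
  refine ⟨G, inferInstance, inferInstance, inferInstance, hm, not_separable, inferInstance,
    inferInstance, ?_⟩
  rintro ⟨S, hS1, hS2⟩
  apply not_discrete
  have h1 := hS2 ⊥ (by
    let _ : TopologicalSpace (PontryaginDual G) := ⊥
    have : DiscreteTopology (PontryaginDual G) := ⟨rfl⟩
    infer_instance) (by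
    let _ : TopologicalSpace (PontryaginDual G) := ⊥
    have : DiscreteTopology (PontryaginDual G) := ⟨rfl⟩
    infer_instance) (fun s hs => by
    have h2 := seq_trivial s (hS1 s hs)
    let _ : TopologicalSpace (PontryaginDual G) := ⊥
    have : DiscreteTopology (PontryaginDual G) := ⟨rfl⟩
    rw [nhds_discrete, tendsto_pure]
    exact h2)
  exact ⟨le_antisymm h1 bot_le⟩

end Pool.Agent.Results.MP_c8715f_al.NotSGroup
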